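import Mathlib
import Pool.Agent.H89.FM.Targets2

/-!
Row BSL: a lattice of index `n` has a basis of determinant `n`.
-/

set_option autoImplicit false

namespace Pool.Agent.H17.FM

open Pool.Agent.H31.CN Pool.Agent.H89.FM

theorem pf_BSL (hFLS : T_FLS) : T_BSL := by
  intro n L hn hL
  have hidx : L.index = n := (hFLS n L hn).1.1 hL
  have hfin : Finite ((ℤ × ℤ) ⧸ L.toIntSubmodule) := by
    have h : Finite ((ℤ × ℤ) ⧸ L) := AddSubgroup.index_ne_zero_iff_finite.1 (by omega)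
    exact h
  have hrank : Module.finrank ℤ L.toIntSubmodule = Module.finrank ℤ (ℤ × ℤ) :=
    (Submodule.finiteQuotient_iff _).1 hfin
  have h2 : Module.finrank ℤ L.toIntSubmodule = 2 := by
    rw [hrank]; simp
  let b : Module.Basis (Fin 2) ℤ L.toIntSubmodule := Module.finBasisOfFinrankEq ℤ _ h2
  have hdet := AddSubgroup.index_eq_natAbs_det (Module.Basis.finTwoProd ℤ) L b
  rw [hidx] at hdet
  have hd : ((Module.Basis.finTwoProd ℤ).det fun i => ((b i : L.toIntSubmodule) : ℤ × ℤ)) =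
      det (b 0 : ℤ × ℤ) (b 1 : ℤ × ℤ) := by
    rw [Module.Basis.det_apply, Matrix.det_fin_two]
    simp [Module.Basis.toMatrix_apply, det]
    ring
  have hspan : ∀ v : ℤ × ℤ, v ∈ L ↔ ∃ a c : ℤ, v = a • (b 0 : ℤ × ℤ) + c • (b 1 : ℤ × ℤ) := by
    intro v
    constructor
    · intro hv
      have h := b.sum_repr ⟨v, hv⟩
      rw [Fin.sum_univ_two] at h
      refine ⟨b.repr ⟨v, hv⟩ 0, b.repr ⟨v, hv⟩ 1, ?_⟩
      have h' := congrArg (Subtype.val) h
      simpa using h'.symm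
    · rintro ⟨a, c, rfl⟩
      exact L.add_mem (L.zsmul_mem (b 0).2 a) (L.zsmul_mem (b 1).2 c)
  have hd' : n = (det (b 0 : ℤ × ℤ) (b 1 : ℤ × ℤ)).natAbs := by
    rw [← hd]; exact hdet
  rcases Int.natAbs_eq (det (b 0 : ℤ × ℤ) (b 1 : ℤ × ℤ)) with h | h
  · exact ⟨b 0, b 1, by rw [h, ← hd'], hspan⟩
  · refine ⟨b 1, b 0, ?_, fun v => ?_⟩
    · have : det (b 1 : ℤ × ℤ) (b 0 : ℤ × ℤ) = - det (b 0 : ℤ × ℤ) (b 1 : ℤ × ℤ) := by
        unfold det; ring
      rw [this, h, ← hd', neg_neg]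
    · rw [hspan]
      constructor
      · rintro ⟨a, c, h⟩; exact ⟨c, a, by rw [h, add_comm]⟩
      · rintro ⟨a, c, h⟩; exact ⟨c, a, by rw [h, add_comm]⟩

end Pool.Agent.H17.FM
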