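import Mathlib
import Pool.Agent.H61.FM.Targets
import Pool.Agent.H29.THC.BaseA
import Pool.Agent.H63.THC.HR

/-!
Row HBD: the class number of an imaginary quadratic field.
-/

set_option autoImplicit false

open NumberField NumberField.InfinitePlace MeasureTheory Set Filter

namespace Pool.Agent.H17.FM

open Pool.Agent.H61.FM

/-- an imaginary quadratic field has one infinite place -/
theorem card_place {K : Type} [Field K] [NumberField K] {D : ℕ} (h : IQ K D) :
    Fintype.card (InfinitePlace K) = 1 := by
  have hd : discr K < 0 := by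
    rw [h.dis]
    have := h.pos
    omega
  have h2 := InfinitePlace.card_add_two_mul_card_eq_rank K
  have h3 := sign_discr K
  rw [Int.sign_eq_neg_one_of_neg hd] at h3
  rw [h.rk] at h2
  have h4 : InfinitePlace.nrComplexPlaces K ≠ 0 := by
    intro h0
    rw [h0] at h3
    norm_num at h3
  have h5 : InfinitePlace.nrRealPlaces K = 0 := by omega
  have h6 : InfinitePlace.nrComplexPlaces K = 1 := by omega
  rw [InfinitePlace.card_eq_nrRealPlaces_add_nrComplexPlaces, h5, h6]

/-- the regulator of an imaginary quadratic field is one -/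
theorem regulator_one {K : Type} [Field K] [NumberField K] {D : ℕ} (h : IQ K D) :
    Units.regulator K = 1 := by
  classical
  have hc := card_place h
  have hr : Units.rank K = 0 := by
    unfold Units.rank
    rw [hc]
  rw [Units.regulator_eq_det']
  have : IsEmpty {w : InfinitePlace K // w ≠ Units.dirichletUnitTheorem.w₀} := by
    constructor
    rintro ⟨w, hw⟩
    have h1 := Fintype.card_le_one_iff.1 hc.le w Units.dirichletUnitTheorem.w₀
    exact hw h1
  rw [Matrix.det_isEmpty, abs_one]

theorem HBD_of (hHR : Pool.Agent.H29.TC.T_HR) : T_HBD := by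
  intro ε hε
  obtain ⟨C, hC⟩ := hHR 2 ε hε
  refine ⟨max C 1, lt_max_of_lt_right one_pos, fun K _ _ D h => ?_⟩
  have h1 := hC K h.rk
  have hreg : Units.regulator K = 1 := regulator_one h
  rw [hreg, mul_one, h.dis] at h1
  have hDabs : |((-(D : ℤ) : ℤ) : ℝ)| = D := by
    push_cast
    rw [abs_neg, abs_of_nonneg (by positivity)]
  rw [hDabs] at h1
  have hcl : (Fintype.card (ClassGroup (𝓞 K)) : ℝ) ≤ max C 1 * (D : ℝ) ^ (1 / 2 + ε) :=
    h1.trans (mul_le_mul_of_nonneg_right (le_max_left _ _) (by positivity))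
  refine ⟨hcl, ?_⟩
  have hcc : Fintype.card (CC K) = Fintype.card (ClassGroup (𝓞 K)) := by
    have := CommGroup.card_monoidHom_of_hasEnoughRootsOfUnity (ClassGroup (𝓞 K)) ℂ
    rwa [Nat.card_eq_fintype_card, Nat.card_eq_fintype_card] at this
  rw [hcc]
  exact hcl

theorem pf_HBD : T_HBD :=
  HBD_of (Pool.Agent.H63.THC.pf_HR Pool.Agent.H29.THC.Base.c_A1 Pool.Agent.H29.THC.Base.c_MV
    Pool.Agent.H29.THC.Base.c_FP Pool.Agent.H29.THC.Base.c_SY Pool.Agent.H29.THC.Base.c_RR)

end Pool.Agent.H17.FM
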