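import Mathlib
import Pool.Agent.H89.FM.Targets2

/-!
Row INV: the inversion of the function `Psr`.
-/

set_option autoImplicit false

open MeasureTheory Set Filter
open scoped Real Matrix MatrixGroups Nat

namespace Pool.Agent.H17.FM

open Pool.Agent.H31.CN Pool.Agent.H89.FM

/-- a power against an exponential -/
theorem pow_exp_le (k : ℕ) (δ x : ℝ) (hδ : 0 < δ) (hx : 0 ≤ x) :
    x ^ k * Real.exp (-(2 * δ * x)) ≤ (k ! : ℝ) / δ ^ k * Real.exp (-(δ * x)) := by
  have h1 := Real.pow_div_factorial_le_exp (δ * x) (by positivity) k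
  have hk : (0 : ℝ) < k ! := by exact_mod_cast Nat.factorial_pos k
  rw [div_le_iff₀ hk] at h1
  have h2 : x ^ k ≤ (k ! : ℝ) / δ ^ k * Real.exp (δ * x) := by
    rw [div_mul_eq_mul_div, le_div_iff₀ (by positivity)]
    calc x ^ k * δ ^ k = (δ * x) ^ k := by ring
      _ ≤ Real.exp (δ * x) * k ! := h1
      _ = (k ! : ℝ) * Real.exp (δ * x) := by ring
  calc x ^ k * Real.exp (-(2 * δ * x))
      ≤ (k ! : ℝ) / δ ^ k * Real.exp (δ * x) * Real.exp (-(2 * δ * x)) :=
        mul_le_mul_of_nonneg_right h2 (Real.exp_pos _).le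
    _ = (k ! : ℝ) / δ ^ k * Real.exp (-(δ * x)) := by
        rw [mul_assoc, ← Real.exp_add]
        congr 2
        ring

section series

variable {ι : Type} (r : ι → ℝ) (c : ι → ℂ)

/-- the derivatives of a theta series -/
noncomputable def Fk (k : ℕ) (w : ℂ) : ℂ :=
  ∑' v, c v * ((-(2 * π * r v) : ℂ) ^ k * Complex.exp (-(2 * π * w * (r v : ℂ))))

theorem Fk_bound (hr : ∀ v, 0 ≤ r v) (hc : ∀ v, ‖c v‖ ≤ 1) (k : ℕ) (ε : ℝ) (hε : 0 < ε)
    (w : ℂ) (hw : ε ≤ w.re) (v : ι) :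
    ‖c v * ((-(2 * π * r v) : ℂ) ^ k * Complex.exp (-(2 * π * w * (r v : ℂ))))‖ ≤
      (k ! : ℝ) / (ε / 2) ^ k * Real.exp (-(2 * π * (ε / 2) * r v)) := by
  have h1 : ‖(-(2 * π * r v) : ℂ)‖ = 2 * π * r v := by
    rw [norm_neg]
    have : (2 * π * r v : ℂ) = ((2 * π * r v : ℝ) : ℂ) := by push_cast; ring
    rw [this, Complex.norm_real, Real.norm_eq_abs, abs_of_nonneg]
    have := hr v
    positivity
  have h2 : ‖Complex.exp (-(2 * π * w * (r v : ℂ)))‖ = Real.exp (-(w.re * (2 * π * r v))) := by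
    rw [Complex.norm_exp]
    congr 1
    have : (-(2 * π * w * (r v : ℂ))) = -(((2 * π * r v : ℝ) : ℂ) * w) := by push_cast; ring
    rw [this, Complex.neg_re, Complex.re_ofReal_mul]
    ring
  have hx : 0 ≤ 2 * π * r v := by
    have := hr v
    positivity
  rw [norm_mul, norm_mul, norm_pow, h1, h2]
  have h3 := pow_exp_le k (ε / 2) (2 * π * r v) (by positivity) hx
  have h4 : Real.exp (-(w.re * (2 * π * r v))) ≤ Real.exp (-(2 * (ε / 2) * (2 * π * r v))) := by
    rw [Real.exp_le_exp]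
    have := mul_le_mul_of_nonneg_right hw hx
    linarith
  calc ‖c v‖ * ((2 * π * r v) ^ k * Real.exp (-(w.re * (2 * π * r v))))
      ≤ 1 * ((2 * π * r v) ^ k * Real.exp (-(2 * (ε / 2) * (2 * π * r v)))) := by
        refine mul_le_mul (hc v) (mul_le_mul_of_nonneg_left h4 (by positivity)) (by positivity)
          zero_le_one
    _ = (2 * π * r v) ^ k * Real.exp (-(2 * (ε / 2) * (2 * π * r v))) := one_mul _
    _ ≤ (k ! : ℝ) / (ε / 2) ^ k * Real.exp (-((ε / 2) * (2 * π * r v))) := h3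
    _ = (k ! : ℝ) / (ε / 2) ^ k * Real.exp (-(2 * π * (ε / 2) * r v)) := by
        congr 2
        ring

theorem Fk_summable (hr : ∀ v, 0 ≤ r v) (hc : ∀ v, ‖c v‖ ≤ 1)
    (hs : ∀ u : ℝ, 0 < u → Summable fun v => Real.exp (-(2 * π * u * r v))) (k : ℕ)
    (w : ℂ) (hw : 0 < w.re) :
    Summable fun v => c v * ((-(2 * π * r v) : ℂ) ^ k * Complex.exp (-(2 * π * w * (r v : ℂ)))) :=
  Summable.of_norm_bounded ((hs (w.re / 2) (by positivity)).mul_left _)
    (Fk_bound r c hr hc k w.re hw w le_rfl)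

theorem Fk_deriv (hr : ∀ v, 0 ≤ r v) (hc : ∀ v, ‖c v‖ ≤ 1)
    (hs : ∀ u : ℝ, 0 < u → Summable fun v => Real.exp (-(2 * π * u * r v))) (k : ℕ)
    (w : ℂ) (hw : 0 < w.re) : HasDerivAt (Fk r c k) (Fk r c (k + 1) w) w := by
  have ho : IsOpen {z : ℂ | w.re / 2 < z.re} := isOpen_lt continuous_const Complex.continuous_re
  have hp : IsPreconnected {z : ℂ | w.re / 2 < z.re} :=
    (convex_halfSpace_re_gt (w.re / 2)).isPreconnected
  refine hasDerivAt_tsum_of_isPreconnected (t := {z : ℂ | w.re / 2 < z.re})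
    (g := fun v z => c v * ((-(2 * π * r v) : ℂ) ^ k * Complex.exp (-(2 * π * z * (r v : ℂ)))))
    (g' := fun v z => c v * ((-(2 * π * r v) : ℂ) ^ (k + 1) *
      Complex.exp (-(2 * π * z * (r v : ℂ)))))
    (u := fun v => ((k + 1) ! : ℝ) / (w.re / 2 / 2) ^ (k + 1) *
      Real.exp (-(2 * π * (w.re / 2 / 2) * r v)))
    ((hs (w.re / 2 / 2) (by positivity)).mul_left _) ho hp ?_ ?_ (y₀ := w) ?_
    (Fk_summable r c hr hc hs k w hw) ?_
  · intro v z _
    have h1 : HasDerivAt (fun z : ℂ => -(2 * π * z * (r v : ℂ))) (-(2 * π * r v)) z := by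
      have h0 := ((hasDerivAt_id z).const_mul (2 * π : ℂ)).mul_const (r v : ℂ)
      have h0' := h0.fun_neg
      simpa using h0'
    have h2 := (h1.cexp.const_mul ((-(2 * π * r v) : ℂ) ^ k)).const_mul (c v)
    have e : c v * ((-(2 * π * r v) : ℂ) ^ k * (Complex.exp (-(2 * π * z * (r v : ℂ))) *
        (-(2 * π * r v)))) = c v * ((-(2 * π * r v) : ℂ) ^ (k + 1) *
        Complex.exp (-(2 * π * z * (r v : ℂ)))) := by ring
    rw [e] at h2
    exact h2
  · intro v z hz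
    have hz' : w.re / 2 < z.re := hz
    exact Fk_bound r c hr hc (k + 1) (w.re / 2) (by positivity) z hz'.le v
  · change w.re / 2 < w.re
    linarith
  · change w.re / 2 < w.re
    linarith

end series

theorem pf_INV (hTHL : T_THL) (hTHH : T_THH) : T_INV := by
  classical
  intro n L x y hn hL hy
  have hn0 : (0 : ℝ) < n := by exact_mod_cast hn
  set r : ℤ × ℤ → ℝ := fun v => qz x y v / n with hr
  set c : ℤ × ℤ → ℂ := fun v => if v ∈ L then 1 else 0 with hc
  have r0 : ∀ v, 0 ≤ r v := fun v => by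
    simp only [hr, qz]
    positivity
  have c1 : ∀ v, ‖c v‖ ≤ 1 := fun v => by
    simp only [hc]
    split_ifs <;> simp
  have hs : ∀ u : ℝ, 0 < u → Summable fun v => Real.exp (-(2 * π * u * r v)) := fun u hu =>
    (hTHL n L x y u hn hL hy hu).1
  have hF0 : ∀ w, ThL n L x y w = Fk r c 0 w := by
    intro w
    unfold ThL Fk
    refine tsum_congr fun v => ?_
    simp only [hc, hr, pow_zero, one_mul, ite_mul, zero_mul]
  have hP : ∀ w : ℂ, 0 < w.re → Psr n L x y w = w ^ 2 * Fk r c 2 w + 2 * w * Fk r c 1 w := by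
    intro w hw
    have s1 := (Fk_summable r c r0 c1 hs 1 w hw).mul_left (2 * w)
    have s2 := (Fk_summable r c r0 c1 hs 2 w hw).mul_left (w ^ 2)
    unfold Psr Fk
    rw [← tsum_mul_left, ← tsum_mul_left, ← s2.tsum_add s1]
    refine tsum_congr fun v => ?_
    unfold pst
    by_cases hv : v ∈ L
    · by_cases hv0 : v = 0
      · have hq : r v = 0 := by simp [hr, hv0, qz]
        rw [if_neg (by simp [hv0]), hq]
        simp
      · rw [if_pos ⟨hv, hv0⟩]
        have hcv : c v = 1 := by simp only [hc]; exact if_pos hv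
        rw [hcv]
        change phc (w * ((r v : ℝ) : ℂ)) = _
        unfold phc
        have e : -(2 * π * (w * (r v : ℂ))) = -(2 * π * w * (r v : ℂ)) := by ring
        rw [e]
        ring
    · rw [if_neg (fun h => hv h.1)]
      have hcv : c v = 0 := by simp only [hc]; exact if_neg hv
      rw [hcv]
      ring
  have hD : ∀ k w, 0 < w.re → HasDerivAt (Fk r c k) (Fk r c (k + 1) w) w := fun k w hw =>
    Fk_deriv r c r0 c1 hs k w hw
  have hopen : IsOpen {w : ℂ | 0 < w.re} := isOpen_lt continuous_const Complex.continuous_re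
  have hinv : ∀ w : ℂ, 0 < w.re → 0 < (w⁻¹).re := by
    intro w hw
    rw [Complex.inv_re]
    exact div_pos hw (Complex.normSq_pos.2 (fun h => by rw [h] at hw; simp at hw))
  refine ⟨?_, ?_⟩
  · intro w hw
    have hw' : 0 < w.re := hw
    have h1 : DifferentiableAt ℂ (fun w => w ^ 2 * Fk r c 2 w + 2 * w * Fk r c 1 w) w :=
      ((differentiableAt_id.pow 2).mul (hD 2 w hw').differentiableAt).add
        ((differentiableAt_id.const_mul 2).mul (hD 1 w hw').differentiableAt)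
    refine (h1.congr_of_eventuallyEq ?_).differentiableWithinAt
    filter_upwards [hopen.mem_nhds hw] with z hz
    exact hP z hz
  · -- the first derivative of the functional equation
    have hne : ∀ w : ℂ, 0 < w.re → w ≠ 0 := fun w hw h => by rw [h] at hw; simp at hw
    have hfe : ∀ w : ℂ, 0 < w.re → Fk r c 0 w⁻¹ = w * Fk r c 0 w := fun w hw => by
      rw [← hF0, ← hF0]
      exact (hTHH n L x y hn hL hy).2 w hw
    have h1 : ∀ w : ℂ, 0 < w.re →
        Fk r c 1 w⁻¹ * (-(w ^ 2)⁻¹) = Fk r c 0 w + w * Fk r c 1 w := by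
      intro w hw
      have a1 : HasDerivAt (fun z : ℂ => Fk r c 0 z⁻¹) (Fk r c 1 w⁻¹ * (-(w ^ 2)⁻¹)) w :=
        (hD 0 w⁻¹ (hinv w hw)).comp w (hasDerivAt_inv (hne w hw))
      have a2 : HasDerivAt (fun z : ℂ => z * Fk r c 0 z) (1 * Fk r c 0 w + w * Fk r c 1 w) w :=
        (hasDerivAt_id w).mul (hD 0 w hw)
      have a3 : (fun z : ℂ => Fk r c 0 z⁻¹) =ᶠ[nhds w] fun z => z * Fk r c 0 z := by
        filter_upwards [hopen.mem_nhds hw] with z hz
        exact hfe z hz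
      have a4 := (a2.congr_of_eventuallyEq a3).unique a1
      rw [← a4, one_mul]
    have h2 : ∀ w : ℂ, 0 < w.re →
        (Fk r c 2 w⁻¹ * (-(w ^ 2)⁻¹)) * (-(w ^ 2)⁻¹) + Fk r c 1 w⁻¹ * (2 * (w ^ 3)⁻¹) =
        2 * Fk r c 1 w + w * Fk r c 2 w := by
      intro w hw
      have hw0 := hne w hw
      have a1 : HasDerivAt (fun z : ℂ => Fk r c 1 z⁻¹) (Fk r c 2 w⁻¹ * (-(w ^ 2)⁻¹)) w :=
        (hD 1 w⁻¹ (hinv w hw)).comp w (hasDerivAt_inv hw0)
      have b1 : HasDerivAt (fun z : ℂ => -(z ^ 2)⁻¹) (2 * (w ^ 3)⁻¹) w := by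
        have b0 := ((hasDerivAt_pow 2 w).inv (pow_ne_zero 2 hw0)).neg
        have e : -(-((2 : ℕ) * w ^ (2 - 1)) / (w ^ 2) ^ 2) = 2 * (w ^ 3)⁻¹ := by
          push_cast
          field_simp
        rw [e] at b0
        exact b0
      have a2 := a1.mul b1
      have c2 : HasDerivAt (fun z : ℂ => Fk r c 0 z + z * Fk r c 1 z)
          (Fk r c 1 w + (1 * Fk r c 1 w + w * Fk r c 2 w)) w :=
        (hD 0 w hw).add ((hasDerivAt_id w).mul (hD 1 w hw))
      have a3 : (fun z : ℂ => Fk r c 1 z⁻¹ * (-(z ^ 2)⁻¹)) =ᶠ[nhds w]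
          fun z => Fk r c 0 z + z * Fk r c 1 z := by
        filter_upwards [hopen.mem_nhds hw] with z hz
        exact h1 z hz
      have a4 := (c2.congr_of_eventuallyEq a3).unique a2
      rw [← a4]
      ring
    intro w hw
    have hw0 := hne w hw
    have h3 := h2 w hw
    rw [hP _ (hinv w hw), hP w hw]
    have e1 : w⁻¹ ^ 2 * Fk r c 2 w⁻¹ + 2 * w⁻¹ * Fk r c 1 w⁻¹ =
        w ^ 2 * ((Fk r c 2 w⁻¹ * (-(w ^ 2)⁻¹)) * (-(w ^ 2)⁻¹) +
          Fk r c 1 w⁻¹ * (2 * (w ^ 3)⁻¹)) := by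
      field_simp
    rw [e1, h3]
    ring

end Pool.Agent.H17.FM
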